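import Mathlib
import Pool.Agent.Q289.KK.Stm

/-!
# Project KK, job RhoStm: one-particle density matrices
-/

set_option autoImplicit false

namespace Pool.Agent.Q166.KK

open Finset Q289.KK

section rho

variable {n ℓ : ℕ}

/-- Extension by zero. -/
noncomputable def ext0 (u : Sb n ℓ → ℝ) (T : Finset (Fin n)) : ℝ :=
  if h : T.card = ℓ then u ⟨T, h⟩ else 0

theorem ext0_coe (u : Sb n ℓ → ℝ) (I : Sb n ℓ) : ext0 u I.1 = u I := by
  unfold ext0
  rw [dif_pos I.2]

theorem ext0_ne (u : Sb n ℓ → ℝ) {T : Finset (Fin n)} (h : T.card ≠ ℓ) : ext0 u T = 0 := by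
  unfold ext0
  rw [dif_neg h]

theorem sum_sb (F : Finset (Fin n) → ℝ) (hF : ∀ T : Finset (Fin n), T.card ≠ ℓ → F T = 0) :
    ∑ I : Sb n ℓ, F I.1 = ∑ T, F T := by
  rw [← Finset.sum_subtype (Finset.univ.filter fun T : Finset (Fin n) => T.card = ℓ)
    (fun x => by simp) F, Finset.sum_filter]
  refine Finset.sum_congr rfl fun T _ => ?_
  split_ifs with h
  · rfl
  · exact (hF T h).symm

theorem cS_eq (u : Sb n ℓ → ℝ) (S : Finset (Fin n)) :
    (∑ I : Sb n ℓ, ∑ J : Sb n ℓ, if symmDiff I.1 J.1 = S then u I * u J else 0) =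
      ∑ A : Finset (Fin n), ext0 u A * ext0 u (symmDiff A S) := by
  have h1 : ∀ I : Sb n ℓ, (∑ J : Sb n ℓ, if symmDiff I.1 J.1 = S then u I * u J else 0) =
      ext0 u I.1 * ext0 u (symmDiff I.1 S) := by
    intro I
    have h2 : ∀ J : Sb n ℓ, (if symmDiff I.1 J.1 = S then u I * u J else 0) =
        (fun B : Finset (Fin n) => if B = symmDiff I.1 S then ext0 u I.1 * ext0 u B else 0) J.1 := by
      intro J
      simp only [ext0_coe]
      have h3 : symmDiff I.1 J.1 = S ↔ J.1 = symmDiff I.1 S := by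
        constructor
        · rintro rfl
          rw [symmDiff_symmDiff_cancel_left]
        · intro h
          rw [h, symmDiff_symmDiff_cancel_left]
      simp only [h3]
    rw [Finset.sum_congr rfl fun J _ => h2 J, sum_sb (fun B : Finset (Fin n) =>
      if B = symmDiff I.1 S then ext0 u I.1 * ext0 u B else 0)]
    · simp
    · intro T hT
      simp [ext0_ne u hT]
  rw [Finset.sum_congr rfl fun I _ => h1 I,
    sum_sb (fun A => ext0 u A * ext0 u (symmDiff A S))]
  intro T hT
  simp [ext0_ne u hT]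

/-- The vectors `w_K`. -/
noncomputable def ww (u : Sb n ℓ → ℝ) (K : Finset (Fin n)) (i : Fin n) : ℝ :=
  if i ∈ K then 0 else ext0 u (insert i K)

theorem half (u : Sb n ℓ → ℝ) {i j : Fin n} (hij : i ≠ j) :
    (∑ A : Finset (Fin n), if i ∈ A ∧ j ∉ A then ext0 u A * ext0 u (symmDiff A {i, j}) else 0) =
      ∑ K, ww u K i * ww u K j := by
  have h0 : ∀ K : Finset (Fin n), ww u K i * ww u K j =
      if i ∉ K ∧ j ∉ K then ext0 u (insert i K) * ext0 u (insert j K) else 0 := by
    intro K
    unfold ww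
    by_cases h1 : i ∈ K <;> by_cases h2 : j ∈ K <;> simp [h1, h2]
  rw [Finset.sum_congr rfl fun K _ => h0 K, ← Finset.sum_filter, ← Finset.sum_filter]
  refine Finset.sum_nbij' (fun A => A.erase i) (fun K => insert i K) ?_ ?_ ?_ ?_ ?_
  · intro A hA
    obtain ⟨-, h1, h2⟩ := Finset.mem_filter.1 hA
    refine Finset.mem_filter.2 ⟨Finset.mem_univ _, Finset.notMem_erase _ _, ?_⟩
    intro h
    exact h2 (Finset.mem_of_mem_erase h)
  · intro K hK
    obtain ⟨-, h1, h2⟩ := Finset.mem_filter.1 hK
    refine Finset.mem_filter.2 ⟨Finset.mem_univ _, Finset.mem_insert_self _ _, ?_⟩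
    rw [Finset.mem_insert]
    rintro (h | h)
    · exact hij h.symm
    · exact h2 h
  · intro A hA
    exact Finset.insert_erase (Finset.mem_filter.1 hA).2.1
  · intro K hK
    exact Finset.erase_insert (Finset.mem_filter.1 hK).2.1
  · intro A hA
    obtain ⟨-, h1, h2⟩ := Finset.mem_filter.1 hA
    rw [Finset.insert_erase h1]
    congr 2
    ext x
    simp only [Finset.mem_symmDiff, Finset.mem_insert, Finset.mem_singleton, Finset.mem_erase]
    by_cases hx : x = i
    · subst hx
      simp [h1, hij]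
    · by_cases hx' : x = j
      · subst hx'
        simp [h2]
      · simp [hx, hx']

theorem card_swap {A : Finset (Fin n)} {i j : Fin n} (hij : i ≠ j) (h : (i ∈ A ↔ j ∈ A)) :
    A.card ≠ (symmDiff A {i, j}).card := by
  by_cases hi : i ∈ A
  · have hj := h.1 hi
    have h1 : symmDiff A {i, j} = A \ {i, j} := by
      ext x
      simp only [Finset.mem_symmDiff, Finset.mem_insert, Finset.mem_singleton, Finset.mem_sdiff]
      constructor
      · rintro (h | ⟨h | h, h'⟩)
        · exact h
        · exact absurd (h ▸ hi) h'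
        · exact absurd (h ▸ hj) h'
      · exact Or.inl
    have h2 : ({i, j} : Finset (Fin n)) ⊆ A := by
      intro x hx
      rw [Finset.mem_insert, Finset.mem_singleton] at hx
      rcases hx with rfl | rfl
      · exact hi
      · exact hj
    have h3 := Finset.card_le_card h2
    rw [Finset.card_pair hij] at h3
    rw [h1, Finset.card_sdiff_of_subset h2, Finset.card_pair hij]
    omega
  · have hj : j ∉ A := fun hj => hi (h.2 hj)
    have h1 : symmDiff A {i, j} = A ∪ {i, j} := by
      ext x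
      simp only [Finset.mem_symmDiff, Finset.mem_insert, Finset.mem_singleton, Finset.mem_union]
      constructor
      · rintro (h | h)
        · exact Or.inl h.1
        · exact Or.inr h.1
      · rintro (h7 | h7)
        · refine Or.inl ⟨h7, ?_⟩
          rintro (rfl | rfl)
          · exact hi h7
          · exact hj h7
        · refine Or.inr ⟨h7, ?_⟩
          rcases h7 with rfl | rfl
          · exact hi
          · exact hj
    have h2 : Disjoint A {i, j} := by
      rw [Finset.disjoint_right]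
      intro x hx
      rw [Finset.mem_insert, Finset.mem_singleton] at hx
      rcases hx with rfl | rfl
      · exact hi
      · exact hj
    rw [h1, Finset.card_union_of_disjoint h2, Finset.card_pair hij]
    omega

theorem cS_pair (u : Sb n ℓ → ℝ) {i j : Fin n} (hij : i ≠ j) :
    (∑ I : Sb n ℓ, ∑ J : Sb n ℓ, if symmDiff I.1 J.1 = {i, j} then u I * u J else 0) =
      2 * ∑ K, ww u K i * ww u K j := by
  rw [cS_eq]
  have h1 := half u hij
  have h2 := half u hij.symm
  have h3 : ∀ A : Finset (Fin n), ext0 u A * ext0 u (symmDiff A {i, j}) =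
      (if i ∈ A ∧ j ∉ A then ext0 u A * ext0 u (symmDiff A {i, j}) else 0) +
      (if j ∈ A ∧ i ∉ A then ext0 u A * ext0 u (symmDiff A {j, i}) else 0) := by
    intro A
    rw [Finset.pair_comm j i]
    by_cases hi : i ∈ A <;> by_cases hj : j ∈ A
    · simp only [hi, hj, not_true_eq_false, and_false, if_false, add_zero]
      have := card_swap hij (A := A) (by simp [hi, hj])
      by_cases hA : A.card = ℓ
      · rw [ext0_ne u (T := symmDiff A {i, j}) (by rw [← hA]; exact this.symm), mul_zero]
      · rw [ext0_ne u hA, zero_mul]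
    · simp [hi, hj]
    · simp [hi, hj]
    · simp only [hi, hj, false_and, if_false, add_zero]
      have := card_swap hij (A := A) (by simp [hi, hj])
      by_cases hA : A.card = ℓ
      · rw [ext0_ne u (T := symmDiff A {i, j}) (by rw [← hA]; exact this.symm), mul_zero]
      · rw [ext0_ne u hA, zero_mul]
  rw [Finset.sum_congr rfl fun A _ => h3 A, Finset.sum_add_distrib, h1, h2, two_mul]
  congr 1
  exact Finset.sum_congr rfl fun K _ => mul_comm _ _

theorem trace_rho (u : Sb n ℓ → ℝ) (hu : ∑ I, u I ^ 2 = 1) :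
    ∑ i, ∑ K, ww u K i ^ 2 = ℓ := by
  have h1 : ∀ i, ∑ K, ww u K i ^ 2 = ∑ A, if i ∈ A then ext0 u A ^ 2 else 0 := by
    intro i
    have h2 : ∀ K, ww u K i ^ 2 = if i ∉ K then ext0 u (insert i K) ^ 2 else 0 := by
      intro K
      unfold ww
      by_cases h : i ∈ K <;> simp [h]
    rw [Finset.sum_congr rfl fun K _ => h2 K, ← Finset.sum_filter, ← Finset.sum_filter]
    refine Finset.sum_nbij' (fun K => insert i K) (fun A => A.erase i) ?_ ?_ ?_ ?_ ?_
    · intro K _
      exact Finset.mem_filter.2 ⟨Finset.mem_univ _, Finset.mem_insert_self _ _⟩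
    · intro A _
      exact Finset.mem_filter.2 ⟨Finset.mem_univ _, Finset.notMem_erase _ _⟩
    · intro K hK
      exact Finset.erase_insert (Finset.mem_filter.1 hK).2
    · intro A hA
      exact Finset.insert_erase (Finset.mem_filter.1 hA).2
    · intro K _
      rfl
  rw [Finset.sum_congr rfl fun i _ => h1 i, Finset.sum_comm]
  have h3 : ∀ A : Finset (Fin n), (∑ i, if i ∈ A then ext0 u A ^ 2 else 0) =
      ℓ * ext0 u A ^ 2 := by
    intro A
    rw [Finset.sum_ite_mem, Finset.univ_inter, Finset.sum_const, nsmul_eq_mul]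
    by_cases hA : A.card = ℓ
    · rw [hA]
    · rw [ext0_ne u hA]; simp
  rw [Finset.sum_congr rfl fun A _ => h3 A, ← Finset.mul_sum,
    ← sum_sb (ℓ := ℓ) (fun A => ext0 u A ^ 2)]
  · simp only [ext0_coe]
    rw [hu, mul_one]
  · intro T hT
    simp [ext0_ne u hT]

theorem pairs (g : Finset (Fin n) → ℝ) (hg : ∀ S, 0 ≤ g S) :
    2 * ∑ S ∈ Finset.univ.filter (fun S : Finset (Fin n) => S.card = 2), g S ≤
      ∑ i, ∑ j, if i ≠ j then g {i, j} else 0 := by
  have h1 : ∀ S ∈ Finset.univ.filter (fun S : Finset (Fin n) => S.card = 2),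
      2 * g S ≤ ∑ p : Fin n × Fin n, if p.1 ≠ p.2 ∧ {p.1, p.2} = S then g S else 0 := by
    intro S hS
    obtain ⟨a, b, hab, rfl⟩ := Finset.card_eq_two.1 (Finset.mem_filter.1 hS).2
    have h2 : ({(a, b), (b, a)} : Finset (Fin n × Fin n)) ⊆ Finset.univ := Finset.subset_univ _
    calc 2 * g {a, b} = ∑ p ∈ ({(a, b), (b, a)} : Finset (Fin n × Fin n)),
          if p.1 ≠ p.2 ∧ ({p.1, p.2} : Finset (Fin n)) = {a, b} then g {a, b} else 0 := by
          rw [Finset.sum_pair (by
            intro h
            exact hab (Prod.mk.inj h).1)]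
          rw [if_pos ⟨hab, rfl⟩, if_pos ⟨hab.symm, Finset.pair_comm b a⟩, two_mul]
      _ ≤ _ := by
          apply Finset.sum_le_sum_of_subset_of_nonneg h2
          intro p _ _
          split_ifs
          · exact hg _
          · exact le_refl _
  rw [Finset.mul_sum]
  refine (Finset.sum_le_sum h1).trans ?_
  rw [Finset.sum_comm, ← Finset.univ_product_univ, Finset.sum_product]
  apply Finset.sum_le_sum
  intro i _
  apply Finset.sum_le_sum
  intro j _
  by_cases hij : i = j
  · subst hij
    simp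
  · simp only [ne_eq, hij, not_false_eq_true, true_and, if_true]
    rw [Finset.sum_ite_eq]
    split_ifs
    · exact le_refl _
    · exact hg _

theorem rho : RhoStm := by
  intro n ℓ u hu
  set c : Finset (Fin n) → ℝ := fun S =>
    ∑ I : Sb n ℓ, ∑ J : Sb n ℓ, if symmDiff I.1 J.1 = S then u I * u J else 0 with hc
  have h1 := pairs (fun S => c S ^ 2) (fun S => sq_nonneg _)
  have h2 : ∀ i j, (if i ≠ j then c {i, j} ^ 2 else 0) ≤
      4 * ((∑ K, ww u K i ^ 2) * (∑ K, ww u K j ^ 2)) := by
    intro i j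
    by_cases hij : i = j
    · simp only [hij, ne_eq, not_true_eq_false, if_false]
      have : 0 ≤ ∑ K, ww u K j ^ 2 := Finset.sum_nonneg fun K _ => sq_nonneg _
      positivity
    · rw [if_pos hij]
      have h3 : c {i, j} = 2 * ∑ K, ww u K i * ww u K j := cS_pair u hij
      rw [h3, mul_pow]
      have h4 := Finset.sum_mul_sq_le_sq_mul_sq Finset.univ (fun K => ww u K i) (fun K => ww u K j)
      nlinarith [h4]
  have h5 : ∑ i, ∑ j, (if i ≠ j then c {i, j} ^ 2 else 0) ≤ 4 * (ℓ : ℝ) ^ 2 := by
    calc ∑ i, ∑ j, (if i ≠ j then c {i, j} ^ 2 else 0)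
        ≤ ∑ i, ∑ j, 4 * ((∑ K, ww u K i ^ 2) * (∑ K, ww u K j ^ 2)) :=
          Finset.sum_le_sum fun i _ => Finset.sum_le_sum fun j _ => h2 i j
      _ = 4 * ((∑ i, ∑ K, ww u K i ^ 2) * (∑ j, ∑ K, ww u K j ^ 2)) := by
          simp only [← Finset.mul_sum, Finset.sum_mul_sum]
      _ = 4 * (ℓ : ℝ) ^ 2 := by rw [trace_rho u hu]; ring
  change ∑ S ∈ Finset.univ.filter (fun S : Finset (Fin n) => S.card = 2), c S ^ 2 ≤ _
  linarith

end rho

end Pool.Agent.Q166.KK
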