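import Mathlib
import Pool.Agent.Q289.KK.Stm

/-!
# Project KK, job ChiStm: second moment of the likelihood ratio
-/

set_option autoImplicit false

namespace Pool.Agent.Q166.KK

open MeasureTheory ProbabilityTheory Finset Q289.KK

section chi

theorem int_exp1 (a : ℝ) : ∫ x, Real.exp (a * x) ∂(gaussianReal 0 1) = Real.exp (a ^ 2 / 2) := by
  have h := congrFun (mgf_id_gaussianReal (μ := 0) (v := 1)) a
  rw [mgf] at h
  simpa using h

theorem integrable_exp1 (a : ℝ) : Integrable (fun x => Real.exp (a * x)) (gaussianReal 0 1) :=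
  integrable_exp_mul_gaussianReal a

variable {ι : Type} [Fintype ι]

theorem int_exp_pi (a : ι → ℝ) :
    ∫ Z, Real.exp (∑ i, a i * Z i) ∂(Measure.pi fun _ : ι => gaussianReal 0 1) =
      Real.exp ((∑ i, a i ^ 2) / 2) := by
  simp_rw [Real.exp_sum]
  rw [integral_fintype_prod_eq_prod (fun i x => Real.exp (a i * x))]
  simp_rw [int_exp1]
  rw [← Real.exp_sum, Finset.sum_div]

theorem integrable_exp_pi (a : ι → ℝ) :
    Integrable (fun Z : ι → ℝ => Real.exp (∑ i, a i * Z i))
      (Measure.pi fun _ : ι => gaussianReal 0 1) := by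
  simp_rw [Real.exp_sum]
  exact Integrable.fintype_prod (f := fun i x => Real.exp (a i * x)) fun i => integrable_exp1 _

theorem esymm2 {κ : Type} [DecidableEq κ] (s : Finset κ) (t : κ → ℝ) :
    2 * ∑ S ∈ s.powersetCard 2, ∏ i ∈ S, t i = (∑ i ∈ s, t i) ^ 2 - ∑ i ∈ s, t i ^ 2 := by
  induction s using Finset.induction_on with
  | empty =>
    rw [Finset.powersetCard_eq_empty.2 (by simp)]
    simp
  | insert a s ha ih =>
    rw [Finset.powersetCard_succ_insert ha, Finset.sum_union, Finset.sum_image, mul_add, ih,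
      Finset.sum_insert ha, Finset.sum_insert ha, Finset.powersetCard_one, Finset.sum_map]
    · have h1 : ∀ i ∈ s, ∏ j ∈ insert a ((⟨singleton, Finset.singleton_injective⟩ :
          κ ↪ Finset κ) i), t j = t a * t i := by
        intro i hi
        have : a ≠ i := fun h => ha (h ▸ hi)
        simp [this]
      rw [Finset.sum_congr rfl h1, ← Finset.mul_sum]
      ring
    · intro x hx y hy hxy
      have hx' : a ∉ x := fun h => ha ((Finset.mem_powersetCard.1 (Finset.mem_coe.1 hx)).1 h)
      have hy' : a ∉ y := fun h => ha ((Finset.mem_powersetCard.1 (Finset.mem_coe.1 hy)).1 h)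
      rw [← Finset.erase_insert hx', ← Finset.erase_insert hy', hxy]
    · rw [Finset.disjoint_left]
      intro x hx hx'
      obtain ⟨y, -, rfl⟩ := Finset.mem_image.1 hx'
      exact ha ((Finset.mem_powersetCard.1 hx).1 (Finset.mem_insert_self a y))

/-- the sign of a truth value -/
def sb (b : Bool) : ℝ := if b then 1 else -1

theorem sb_sq (b : Bool) : sb b ^ 2 = 1 := by
  cases b <;> simp [sb]

variable {n : ℕ}

theorem sg_eq (x : Fin n → Bool) (S : Finset (Fin n)) : sg x S = ∏ i ∈ S, sb (x i) := rfl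

theorem sum_sg (x y : Fin n → Bool) :
    ∑ S ∈ Finset.univ.filter (fun S : Finset (Fin n) => S.card = 2), sg x S * sg y S =
      ((∑ i, sb (x i) * sb (y i)) ^ 2 - n) / 2 := by
  have h1 : Finset.univ.filter (fun S : Finset (Fin n) => S.card = 2) =
      Finset.univ.powersetCard 2 := by
    ext S
    simp [Finset.mem_powersetCard]
  have h2 := esymm2 (Finset.univ : Finset (Fin n)) (fun i => sb (x i) * sb (y i))
  have h3 : ∑ i : Fin n, (sb (x i) * sb (y i)) ^ 2 = n := by
    simp [mul_pow, sb_sq]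
  rw [h3] at h2
  rw [h1, ← h2]
  simp only [sg_eq, ← Finset.prod_mul_distrib]
  ring

/-- the exponents -/
noncomputable def aa (lam : ℝ) (x y : Fin n → Bool) (S : Finset (Fin n)) : ℝ :=
  if S.card = 2 then lam * (sg x S + sg y S) else 0

theorem sg_sq (x : Fin n → Bool) (S : Finset (Fin n)) : sg x S ^ 2 = 1 := by
  rw [sg_eq, ← Finset.prod_pow]
  exact Finset.prod_eq_one fun i _ => sb_sq _

theorem card2 : ((Finset.univ.filter (fun S : Finset (Fin n) => S.card = 2)).card : ℝ) =
    (n.choose 2 : ℝ) := by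
  have h1 : Finset.univ.filter (fun S : Finset (Fin n) => S.card = 2) =
      Finset.univ.powersetCard 2 := by
    ext S
    simp [Finset.mem_powersetCard]
  rw [h1, Finset.card_powersetCard, Finset.card_univ, Fintype.card_fin]

theorem sum_aa_sq (lam : ℝ) (x y : Fin n → Bool) :
    (∑ S, aa lam x y S ^ 2) / 2 - lam ^ 2 * (n.choose 2) =
      lam ^ 2 * (((∑ i, sb (x i) * sb (y i)) ^ 2 - n) / 2) := by
  have h1 : ∑ S, aa lam x y S ^ 2 = ∑ S ∈ Finset.univ.filter (fun S : Finset (Fin n) => S.card = 2),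
      (2 * lam ^ 2 + 2 * lam ^ 2 * (sg x S * sg y S)) := by
    rw [Finset.sum_filter]
    refine Finset.sum_congr rfl fun S _ => ?_
    unfold aa
    split_ifs with h
    · have e1 := sg_sq x S
      have e2 := sg_sq y S
      linear_combination lam ^ 2 * e1 + lam ^ 2 * e2
    · simp
  rw [h1, Finset.sum_add_distrib, Finset.sum_const, nsmul_eq_mul, card2, ← Finset.mul_sum, sum_sg]
  ring

theorem LL_sq (lam : ℝ) (Z : Finset (Fin n) → ℝ) : LL n lam Z ^ 2 =
    (∑ x : Fin n → Bool, ∑ y : Fin n → Bool, Real.exp (∑ S, aa lam x y S * Z S) *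
      Real.exp (- (lam ^ 2 * (n.choose 2)))) / 4 ^ n := by
  unfold LL
  rw [div_pow, sq, Finset.sum_mul_sum, ← pow_mul, mul_comm n 2, pow_mul,
    show (2 : ℝ) ^ 2 = 4 by norm_num]
  congr 1
  refine Finset.sum_congr rfl fun x _ => Finset.sum_congr rfl fun y _ => ?_
  rw [← Real.exp_add, ← Real.exp_add]
  congr 1
  have h1 : ∑ S, aa lam x y S * Z S = lam * (∑ S ∈ Finset.univ.filter
      (fun S : Finset (Fin n) => S.card = 2), sg x S * Z S) + lam * (∑ S ∈ Finset.univ.filter
      (fun S : Finset (Fin n) => S.card = 2), sg y S * Z S) := by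
    rw [← mul_add, ← Finset.sum_add_distrib, Finset.mul_sum, Finset.sum_filter]
    refine Finset.sum_congr rfl fun S _ => ?_
    unfold aa
    split_ifs with h
    · ring
    · simp
  rw [h1]
  ring

theorem LL_sq_integrable (lam : ℝ) : Integrable (fun Z => LL n lam Z ^ 2) (G n) := by
  simp_rw [LL_sq]
  refine Integrable.div_const ?_ _
  refine integrable_finsetSum _ fun x _ => integrable_finsetSum _ fun y _ => ?_
  exact (integrable_exp_pi (aa lam x y)).mul_const _

theorem int_LL_sq (lam : ℝ) : ∫ Z, LL n lam Z ^ 2 ∂(G n) =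
    (∑ x : Fin n → Bool, ∑ y : Fin n → Bool,
      Real.exp (lam ^ 2 * (((∑ i, sb (x i) * sb (y i)) ^ 2 - n) / 2))) / 4 ^ n := by
  simp_rw [LL_sq]
  rw [integral_div]
  congr 1
  rw [integral_finsetSum]
  · refine Finset.sum_congr rfl fun x _ => ?_
    rw [integral_finsetSum]
    · refine Finset.sum_congr rfl fun y _ => ?_
      rw [integral_mul_const, int_exp_pi, ← Real.exp_add, ← sub_eq_add_neg, sum_aa_sq]
    · intro y _
      exact (integrable_exp_pi _).mul_const _
  · intro x _
    exact integrable_finsetSum _ fun y _ => (integrable_exp_pi _).mul_const _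

theorem sum_cosh (t : ℝ) : (∑ x : Fin n → Bool, ∑ y : Fin n → Bool,
    Real.exp (t * ∑ i, sb (x i) * sb (y i))) = 4 ^ n * Real.cosh t ^ n := by
  have h1 : ∀ x : Fin n → Bool, (∑ y : Fin n → Bool, Real.exp (t * ∑ i, sb (x i) * sb (y i))) =
      2 ^ n * Real.cosh t ^ n := by
    intro x
    have h2 : ∀ y : Fin n → Bool, Real.exp (t * ∑ i, sb (x i) * sb (y i)) =
        ∏ i, Real.exp (t * (sb (x i) * sb (y i))) := by
      intro y
      rw [Finset.mul_sum, Real.exp_sum]
    rw [Finset.sum_congr rfl fun y _ => h2 y,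
      ← Fintype.prod_sum (fun i b => Real.exp (t * (sb (x i) * sb b)))]
    have h3 : ∀ i, (∑ b, Real.exp (t * (sb (x i) * sb b))) = 2 * Real.cosh t := by
      intro i
      rw [Real.cosh_eq, Fintype.sum_bool]
      cases x i <;> simp [sb] <;> ring
    rw [Finset.prod_congr rfl fun i _ => h3 i]
    simp [mul_pow]
  rw [Finset.sum_congr rfl fun x _ => h1 x, Finset.sum_const, Finset.card_univ]
  simp only [Fintype.card_pi, Fintype.card_bool, Finset.prod_const, Finset.card_univ,
    Fintype.card_fin, nsmul_eq_mul]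
  push_cast
  rw [← mul_assoc, ← mul_pow]
  norm_num

theorem int_gsq (μ : ℝ) (h1 : μ ^ 2 < 1) :
    ∫ g, Real.exp (μ ^ 2 * g ^ 2 / 2) ∂(gaussianReal 0 1) = 1 / √(1 - μ ^ 2) := by
  rw [integral_gaussianReal_eq_integral_smul (by norm_num)]
  have h2 : ∀ x : ℝ, gaussianPDFReal 0 1 x • Real.exp (μ ^ 2 * x ^ 2 / 2) =
      (√(2 * Real.pi))⁻¹ * Real.exp (-((1 - μ ^ 2) / 2) * x ^ 2) := by
    intro x
    unfold gaussianPDFReal
    rw [smul_eq_mul, mul_assoc, ← Real.exp_add]
    norm_num
    left
    ring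
  simp_rw [h2]
  rw [integral_const_mul, integral_gaussian, ← Real.sqrt_inv, ← Real.sqrt_mul (by positivity),
    one_div, ← Real.sqrt_inv]
  congr 1
  have := Real.pi_pos
  have h3 : (1 - μ ^ 2) ≠ 0 := by linarith
  field_simp

theorem chi : ChiStm := by
  intro n μ hn hμ0 hμ1
  have hn0 : (0 : ℝ) < n := by exact_mod_cast hn
  set lam : ℝ := μ * (n : ℝ) ^ (-(1 / 2 : ℝ)) with hlam
  have hlam2 : lam ^ 2 * n = μ ^ 2 := by
    rw [hlam, mul_pow, ← Real.rpow_natCast ((n : ℝ) ^ (-(1 / 2 : ℝ))) 2, ← Real.rpow_mul hn0.le]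
    norm_num
    rw [Real.rpow_neg_one]
    field_simp
  have hμ2 : μ ^ 2 < 1 := by nlinarith
  have hint : Integrable (fun g => Real.exp (μ ^ 2 * g ^ 2 / 2)) (gaussianReal 0 1) := by
    by_contra h
    have h1 := int_gsq μ hμ2
    rw [integral_undef h] at h1
    have h2 : 0 < 1 / √(1 - μ ^ 2) := by
      have : 0 < √(1 - μ ^ 2) := Real.sqrt_pos.2 (by linarith)
      positivity
    linarith
  rw [int_LL_sq]
  have h4 : (0 : ℝ) < 4 ^ n := by positivity
  rw [div_le_iff₀ h4]
  have h5 : ∀ x y : Fin n → Bool,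
      Real.exp (lam ^ 2 * (((∑ i, sb (x i) * sb (y i)) ^ 2 - n) / 2)) ≤
      ∫ g, Real.exp ((lam * ∑ i, sb (x i) * sb (y i)) * g) ∂(gaussianReal 0 1) := by
    intro x y
    rw [int_exp1]
    apply Real.exp_le_exp.2
    have : 0 ≤ lam ^ 2 * n := by positivity
    nlinarith
  calc (∑ x : Fin n → Bool, ∑ y : Fin n → Bool,
        Real.exp (lam ^ 2 * (((∑ i, sb (x i) * sb (y i)) ^ 2 - n) / 2)))
      ≤ ∑ x : Fin n → Bool, ∑ y : Fin n → Bool,
        ∫ g, Real.exp ((lam * ∑ i, sb (x i) * sb (y i)) * g) ∂(gaussianReal 0 1) :=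
        Finset.sum_le_sum fun x _ => Finset.sum_le_sum fun y _ => h5 x y
    _ = ∫ g, ∑ x : Fin n → Bool, ∑ y : Fin n → Bool,
          Real.exp ((lam * ∑ i, sb (x i) * sb (y i)) * g) ∂(gaussianReal 0 1) := by
        rw [integral_finsetSum]
        · refine Finset.sum_congr rfl fun x _ => ?_
          rw [integral_finsetSum]
          intro y _
          exact integrable_exp1 _
        · intro x _
          exact integrable_finsetSum _ fun y _ => integrable_exp1 _
    _ = ∫ g, 4 ^ n * Real.cosh (lam * g) ^ n ∂(gaussianReal 0 1) := by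
        congr 1
        ext g
        rw [← sum_cosh]
        refine Finset.sum_congr rfl fun x _ => Finset.sum_congr rfl fun y _ => ?_
        congr 1
        ring
    _ ≤ ∫ g, 4 ^ n * Real.exp (μ ^ 2 * g ^ 2 / 2) ∂(gaussianReal 0 1) := by
        apply integral_mono_of_nonneg
        · exact Filter.Eventually.of_forall fun g => by positivity
        · exact hint.const_mul _
        · refine Filter.Eventually.of_forall fun g => ?_
          have h6 : Real.cosh (lam * g) ^ n ≤ Real.exp (μ ^ 2 * g ^ 2 / 2) := by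
            calc Real.cosh (lam * g) ^ n ≤ Real.exp ((lam * g) ^ 2 / 2) ^ n :=
                  pow_le_pow_left₀ (Real.cosh_pos _).le (Real.cosh_le_exp_half_sq _) n
              _ = Real.exp (μ ^ 2 * g ^ 2 / 2) := by
                  rw [← Real.exp_nat_mul, ← hlam2]
                  congr 1
                  ring
          exact mul_le_mul_of_nonneg_left h6 h4.le
    _ = 1 / √(1 - μ ^ 2) * 4 ^ n := by
        rw [integral_const_mul, int_gsq μ hμ2, mul_comm]

end chi

end Pool.Agent.Q166.KK
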