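import Mathlib
import Pool.Agent.Q289.KK.Stm

/-!
# Project KK, jobs UpStm, DownStm, RetStm, CardStm, NfStm: finite combinatorics
-/

set_option autoImplicit false

namespace Pool.Agent.Q166.KK

open Finset Q289.KK

section up

variable {n : ℕ}

theorem dU_add (U : Finset (Fin n) → ℕ) (S : Finset (Fin n)) (x : Fin n) :
    dU (U + Pi.single S 1) x = dU U x + (if x ∈ S then 1 else 0) := by
  unfold dU
  simp only [Pi.add_apply]
  rw [Finset.sum_add_distrib]
  congr 1
  by_cases hx : x ∈ S
  · rw [if_pos hx, Finset.sum_eq_single S]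
    · simp
    · intro b _ hb
      exact Pi.single_eq_of_ne hb 1
    · intro h
      exact absurd (Finset.mem_filter.2 ⟨Finset.mem_univ S, hx⟩) h
  · rw [if_neg hx]
    apply Finset.sum_eq_zero
    intro b hb
    apply Pi.single_eq_of_ne
    rintro rfl
    exact hx (Finset.mem_filter.1 hb).2

theorem dU_sub (U : Finset (Fin n) → ℕ) (S : Finset (Fin n)) (hS : 1 ≤ U S) (x : Fin n) :
    dU (U - Pi.single S 1) x + (if x ∈ S then 1 else 0) = dU U x := by
  rw [← dU_add]
  congr 1
  ext T
  simp only [Pi.add_apply, Pi.sub_apply]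
  by_cases hT : T = S
  · subst hT
    rw [Pi.single_eq_same]
    omega
  · rw [Pi.single_eq_of_ne hT]
    omega

theorem Ph_eq (I : Finset (Fin n)) (U : Finset (Fin n) → ℕ) :
    Ph I U = ∑ x, if x ∈ I then dU U x - 1 else dU U x - 2 := by
  unfold Ph
  rw [Finset.sum_ite]
  congr 1
  · congr 1
    ext x
    simp
  · congr 1
    ext x
    simp

theorem card_parts {I J : Finset (Fin n)} {k : ℕ} (h : I.card = J.card)
    (hk : (symmDiff I J).card = 2 * k) : (I \ J).card = k ∧ (J \ I).card = k := by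
  have h1 : (symmDiff I J).card = (I \ J).card + (J \ I).card := by
    rw [symmDiff_def, Finset.sup_eq_union, Finset.card_union_of_disjoint]
    exact disjoint_sdiff_sdiff
  have h2 := Finset.card_sdiff_add_card_inter I J
  have h3 := Finset.card_sdiff_add_card_inter J I
  rw [Finset.inter_comm] at h3
  omega

theorem up : UpStm := by
  intro n k I J U hIJ hk
  obtain ⟨-, hJI⟩ := card_parts hIJ hk
  rw [Ph_eq, Ph_eq]
  constructor
  · have h1 : 2 * k = ∑ x : Fin n, if x ∈ J \ I then 2 else 0 := by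
      rw [Finset.sum_ite_mem, Finset.univ_inter, Finset.sum_const, hJI, smul_eq_mul, mul_comm]
    rw [h1, ← Finset.sum_add_distrib]
    apply Finset.sum_le_sum
    intro x _
    rw [dU_add]
    by_cases hI : x ∈ I <;> by_cases hJ : x ∈ J <;>
      simp [hI, hJ, Finset.mem_symmDiff]
    all_goals omega
  · intro hf
    apply Finset.sum_le_sum
    intro x _
    rw [dU_add]
    by_cases hI : x ∈ I <;> by_cases hJ : x ∈ J
    · simp [hI, hJ, Finset.mem_symmDiff]
    · simp [hI, hJ, Finset.mem_symmDiff]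
    · have := hf x (Finset.mem_sdiff.2 ⟨hJ, hI⟩)
      simp [hI, hJ, Finset.mem_symmDiff, this]
    · simp [hI, hJ, Finset.mem_symmDiff]

theorem down : DownStm := by
  intro n I J U hU
  rw [Ph_eq, Ph_eq]
  apply Finset.sum_le_sum
  intro x _
  have h := dU_sub U _ hU x
  rw [← h]
  by_cases hI : x ∈ I <;> by_cases hJ : x ∈ J <;>
      simp [hI, hJ, Finset.mem_symmDiff]

theorem ret : RetStm := by
  intro n ℓ k I U
  have h1 : ∀ J ∈ nb (2 * k) I, k * U (symmDiff I.1 J.1) =
      ∑ x ∈ I.1, if x ∈ symmDiff I.1 J.1 then U (symmDiff I.1 J.1) else 0 := by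
    intro J hJ
    have hJ' : (symmDiff I.1 J.1).card = 2 * k := (Finset.mem_filter.1 hJ).2
    obtain ⟨h2, -⟩ := card_parts (by rw [I.2, J.2]) hJ'
    rw [← Finset.sum_filter, Finset.sum_const, smul_eq_mul]
    congr 1
    rw [← h2]
    congr 1
    ext x
    simp only [Finset.mem_sdiff, Finset.mem_filter, Finset.mem_symmDiff]
    tauto
  have h3 : ∀ x ∈ I.1, ∑ J ∈ nb (2 * k) I,
      (if x ∈ symmDiff I.1 J.1 then U (symmDiff I.1 J.1) else 0) ≤ dU U x := by
    intro x _
    rw [← Finset.sum_filter]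
    have hinj : Set.InjOn (fun J : Sb n ℓ => symmDiff I.1 J.1)
        ((nb (2 * k) I).filter fun J => x ∈ symmDiff I.1 J.1) := by
      intro J _ J' _ h
      exact Subtype.ext (symmDiff_right_injective I.1 h)
    rw [← Finset.sum_image (f := U) hinj]
    unfold dU
    apply Finset.sum_le_sum_of_subset
    intro S hS
    rw [Finset.mem_image] at hS
    obtain ⟨J, hJ, rfl⟩ := hS
    exact Finset.mem_filter.2 ⟨Finset.mem_univ _, (Finset.mem_filter.1 hJ).2⟩
  calc k * ∑ J ∈ nb (2 * k) I, U (symmDiff I.1 J.1)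
      = ∑ J ∈ nb (2 * k) I, ∑ x ∈ I.1,
          (if x ∈ symmDiff I.1 J.1 then U (symmDiff I.1 J.1) else 0) := by
        rw [Finset.mul_sum]
        exact Finset.sum_congr rfl h1
    _ = ∑ x ∈ I.1, ∑ J ∈ nb (2 * k) I,
          (if x ∈ symmDiff I.1 J.1 then U (symmDiff I.1 J.1) else 0) := Finset.sum_comm
    _ ≤ ∑ x ∈ I.1, dU U x := Finset.sum_le_sum h3
    _ ≤ ∑ x ∈ I.1, (1 + (dU U x - 1)) := Finset.sum_le_sum fun x _ => by omega
    _ = ℓ + ∑ x ∈ I.1, (dU U x - 1) := by
        rw [Finset.sum_add_distrib, Finset.sum_const, I.2, smul_eq_mul, mul_one]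
    _ ≤ ℓ + Ph I.1 U := by
        unfold Ph
        omega

theorem card : CardStm := by
  intro n ℓ k I
  have h1 : dg n ℓ k = (Finset.powersetCard k I.1 ×ˢ Finset.powersetCard k I.1ᶜ).card := by
    rw [Finset.card_product, Finset.card_powersetCard, Finset.card_powersetCard, Finset.card_compl,
      I.2, Fintype.card_fin]
    rfl
  rw [h1]
  refine Finset.card_bij (fun J _ => (I.1 \ J.1, J.1 \ I.1)) ?_ ?_ ?_
  · intro J hJ
    have hJ' : (symmDiff I.1 J.1).card = 2 * k := (Finset.mem_filter.1 hJ).2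
    obtain ⟨h2, h3⟩ := card_parts (by rw [I.2, J.2]) hJ'
    rw [Finset.mem_product, Finset.mem_powersetCard, Finset.mem_powersetCard]
    refine ⟨⟨Finset.sdiff_subset, h2⟩, ?_, h3⟩
    intro x hx
    exact Finset.mem_compl.2 (Finset.mem_sdiff.1 hx).2
  · intro J _ J' _ h
    rw [Prod.mk.injEq] at h
    apply Subtype.ext
    ext x
    have h4 := congrArg (fun T => x ∈ T) h.1
    have h5 := congrArg (fun T => x ∈ T) h.2
    simp only [Finset.mem_sdiff, eq_iff_iff] at h4 h5
    by_cases hI : x ∈ I.1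
    · simp only [hI, true_and] at h4
      tauto
    · simp only [hI, not_false_eq_true, and_true] at h5
      exact h5
  · rintro ⟨A, B⟩ hAB
    rw [Finset.mem_product, Finset.mem_powersetCard, Finset.mem_powersetCard] at hAB
    obtain ⟨⟨hA, hAk⟩, hB, hBk⟩ := hAB
    simp only at hA hAk hB hBk
    have hBI : ∀ x ∈ B, x ∉ I.1 := fun x hx => Finset.mem_compl.1 (hB hx)
    have hd : Disjoint (I.1 \ A) B := by
      rw [Finset.disjoint_left]
      intro x hx hxB
      exact hBI x hxB (Finset.mem_sdiff.1 hx).1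
    have hc : ((I.1 \ A) ∪ B).card = ℓ := by
      rw [Finset.card_union_of_disjoint hd, Finset.card_sdiff_of_subset hA, hAk, hBk, I.2]
      have := Finset.card_le_card hA
      rw [hAk, I.2] at this
      omega
    have e1 : I.1 \ ((I.1 \ A) ∪ B) = A := by
      ext x
      have := hBI x
      have h7 : x ∈ A → x ∈ I.1 := fun h => hA h
      simp only [Finset.mem_sdiff, Finset.mem_union]
      tauto
    have e2 : ((I.1 \ A) ∪ B) \ I.1 = B := by
      ext x
      have := hBI x
      simp only [Finset.mem_sdiff, Finset.mem_union]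
      tauto
    refine ⟨⟨(I.1 \ A) ∪ B, hc⟩, ?_, ?_⟩
    · refine Finset.mem_filter.2 ⟨Finset.mem_univ _, ?_⟩
      rw [symmDiff_def, Finset.sup_eq_union, Finset.card_union_of_disjoint disjoint_sdiff_sdiff,
        e1, e2, hAk, hBk]
      ring
    · rw [Prod.mk.injEq]
      exact ⟨e1, e2⟩

theorem nf_card : NfStm := by
  intro n ℓ k I U hk hℓ hU
  let X : Finset (Fin n) := Finset.univ.filter fun x => x ∉ I.1 ∧ 1 ≤ dU U x
  have hX : X.card ≤ 2 * k * ∑ S, U S := by
    calc X.card = ∑ x ∈ X, 1 := by rw [Finset.sum_const, smul_eq_mul, mul_one]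
      _ ≤ ∑ x ∈ X, dU U x := Finset.sum_le_sum fun x hx => (Finset.mem_filter.1 hx).2.2
      _ ≤ ∑ x, dU U x := Finset.sum_le_sum_of_subset (Finset.subset_univ _)
      _ = ∑ x, ∑ S : Finset (Fin n), if x ∈ S then U S else 0 := by
          refine Finset.sum_congr rfl fun x _ => ?_
          unfold dU
          rw [Finset.sum_filter]
      _ = ∑ S : Finset (Fin n), ∑ x, if x ∈ S then U S else 0 := Finset.sum_comm
      _ = ∑ S : Finset (Fin n), 2 * k * U S := by
          refine Finset.sum_congr rfl fun S _ => ?_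
          rw [Finset.sum_ite_mem, Finset.univ_inter, Finset.sum_const, smul_eq_mul]
          by_cases h : U S = 0
          · rw [h]; simp
          · rw [hU S h]
      _ = 2 * k * ∑ S, U S := by rw [Finset.mul_sum]
  have hN : ∀ x ∈ X, ((nb (2 * k) I).filter fun J => x ∈ J.1).card ≤
      ℓ.choose k * (n - ℓ - 1).choose (k - 1) := by
    intro x hx
    have hxI : x ∉ I.1 := (Finset.mem_filter.1 hx).2.1
    have h1 : ℓ.choose k * (n - ℓ - 1).choose (k - 1) =
        (Finset.powersetCard k I.1 ×ˢ Finset.powersetCard (k - 1) (I.1ᶜ.erase x)).card := by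
      rw [Finset.card_product, Finset.card_powersetCard, Finset.card_powersetCard,
        Finset.card_erase_of_mem (Finset.mem_compl.2 hxI), Finset.card_compl, I.2, Fintype.card_fin]
    rw [h1]
    refine Finset.card_le_card_of_injOn (fun J => (I.1 \ J.1, (J.1 \ I.1).erase x)) ?_ ?_
    · intro J hJ
      have hJ0 := Finset.mem_filter.1 (Finset.mem_coe.1 hJ)
      have hJ' : (symmDiff I.1 J.1).card = 2 * k := (Finset.mem_filter.1 hJ0.1).2
      obtain ⟨h2, h3⟩ := card_parts (by rw [I.2, J.2]) hJ'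
      rw [Finset.mem_coe, Finset.mem_product, Finset.mem_powersetCard, Finset.mem_powersetCard]
      refine ⟨⟨Finset.sdiff_subset, h2⟩, ?_, ?_⟩
      · apply Finset.erase_subset_erase
        intro y hy
        exact Finset.mem_compl.2 (Finset.mem_sdiff.1 hy).2
      · rw [Finset.card_erase_of_mem (Finset.mem_sdiff.2 ⟨hJ0.2, hxI⟩), h3]
    · intro J hJ J' hJ' h
      have hxJ := (Finset.mem_filter.1 (Finset.mem_coe.1 hJ)).2
      have hxJ' := (Finset.mem_filter.1 (Finset.mem_coe.1 hJ')).2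
      simp only [Prod.mk.injEq] at h
      apply Subtype.ext
      ext y
      have h4 := congrArg (fun T => y ∈ T) h.1
      have h5 := congrArg (fun T => y ∈ T) h.2
      simp only [Finset.mem_sdiff, Finset.mem_erase, eq_iff_iff] at h4 h5
      by_cases hy : y = x
      · subst hy
        simp only [hxJ, hxJ']
      · by_cases hI : y ∈ I.1
        · simp only [hI, true_and] at h4
          tauto
        · simp only [hI, not_false_eq_true, and_true, ne_eq, hy, true_and] at h5
          exact h5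
  have hsub : nf (2 * k) I U ⊆ X.biUnion fun x => (nb (2 * k) I).filter fun J => x ∈ J.1 := by
    intro J hJ
    obtain ⟨h1, x, hx, hx1⟩ := Finset.mem_filter.1 hJ
    rw [Finset.mem_sdiff] at hx
    rw [Finset.mem_biUnion]
    exact ⟨x, Finset.mem_filter.2 ⟨Finset.mem_univ _, hx.2, hx1⟩, Finset.mem_filter.2 ⟨h1, hx.1⟩⟩
  have h6 : (nf (2 * k) I U).card ≤ X.card * (ℓ.choose k * (n - ℓ - 1).choose (k - 1)) :=
    (Finset.card_le_card hsub).trans (Finset.card_biUnion_le_card_mul _ _ _ hN)
  have h7 : (n - ℓ) * (n - ℓ - 1).choose (k - 1) = k * (n - ℓ).choose k := by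
    obtain ⟨a, ha⟩ : ∃ a, n - ℓ = a + 1 := ⟨n - ℓ - 1, by omega⟩
    obtain ⟨b, rfl⟩ : ∃ b, k = b + 1 := ⟨k - 1, by omega⟩
    rw [ha]
    simp only [Nat.add_sub_cancel]
    rw [Nat.add_one_mul_choose_eq, mul_comm]
  calc (nf (2 * k) I U).card * (n - ℓ)
      ≤ X.card * (ℓ.choose k * (n - ℓ - 1).choose (k - 1)) * (n - ℓ) :=
        Nat.mul_le_mul_right _ h6
    _ = X.card * (ℓ.choose k * ((n - ℓ) * (n - ℓ - 1).choose (k - 1))) := by ring
    _ = X.card * (k * dg n ℓ k) := by rw [h7]; unfold dg; ring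
    _ ≤ 2 * k * (∑ S, U S) * (k * dg n ℓ k) := Nat.mul_le_mul_right _ hX

end up

end Pool.Agent.Q166.KK

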